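import Pool.Agent.J6H60.MH.Main

/-!
# Non-uniqueness of weak solutions for every smooth initial velocity, near every initial density

`Ω ⊂ ℝ³` is any bounded nonempty open set, `T > 0`, the viscosity is any constant `μ > 0`, and `σ`
is any conductivity. Let `r` be any smooth function with positive lower and upper bounds (the wanted
initial density), and let `w` be any smooth solenoidal velocity field with compact support in
`ℝ × Ω` (the wanted flow; its initial value `w(0)` is arbitrary: every smooth solenoidal `u₀` with
compact support in `Ω` occurs). Let `v` be zero, or more generally any smooth solenoidal field with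
compact support in `(0,T) × Ω` whose spatial support is disjoint from that of `w` and on whose
spatial support `r` is constant. Then, for every `ε > 0`, there are a continuous initial density
`ρ₀` with `|ρ₀ - r| ≤ ε` and a force `f ∈ L²(0,T;L²)` such that for the data `(ρ₀, w(0), 0, f)` the
following are weak solutions: the flow `w` itself, with a continuous density, and continuum many
other ones `(ρ A, u A, 0)`, `A ⊆ ℕ`, with pairwise different velocities. All the densities `ρ A` are
continuous, all the velocities `u A` are continuously differentiable, `u A - w` has compact support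
in `(0,T) × Ω`, and `u A` is `ε`-close to `w + v` together with all its first derivatives.

The starting result `ContinuumMany` is the case `w = 0`, `r = 1`, `μ = 1`.

Idea. The construction of the starting file is run inside the complement of the spatial support of
`w`, near a point where `r` has a given value `c`; time and density are rescaled to pass from
viscosity `1` and density near `1` to viscosity `μ` and density near `c`. The flow `w` carries the
density `r ∘ Y`, where `Y` is the inverse flow map; the two densities are interpolated in the region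
where nothing moves. The two flows are superposed; the force of `w` is smooth.

`WeakSol`, `IsData`, `Coeff`, `Cyl`, `dx`, `pdx` are in `Pool.Agent.H729R2.Defs`; `Sol` and `Many`
are in `Pool.Agent.J6H60.MH.Main`.
-/

set_option autoImplicit false

open scoped ContDiff
open MeasureTheory Set Pool.Agent.H729R2 Pool.Agent.H729R2.MHD Pool.Agent.J6H60.MH

namespace Pool.Agent.Results.MP_59296a_an.DenseInitialData

/-- **Non-uniqueness near every smooth flow, for every smooth initial velocity, near every initial
density, and for every constant viscosity, with continuum many solutions.** -/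
theorem result (Ω : Set R3) (hΩ : IsOpen Ω) (hbd : Bornology.IsBounded Ω) (hne : Ω.Nonempty)
    (T μ : ℝ) (hT : 0 < T) (hμ : 0 < μ) (σ : ℝ → ℝ) (hσ : Coeff σ) (r : R3 → ℝ)
    (hr : ContDiff ℝ ∞ r) (a b : ℝ) (ha : 0 < a) (hab : ∀ x, a ≤ r x ∧ r x ≤ b) :
    (∀ w v : ℝ × R3 → R3, Sol (univ ×ˢ Ω) w → Sol (Cyl Ω T) v →
      (∀ z ∈ tsupport v, ∀ t, (t, z.2) ∉ tsupport w) →
      (∀ z ∈ tsupport v, ∀ z' ∈ tsupport v, r z.2 = r z'.2) →
      ∀ ε > 0, Many Ω T μ σ r w v ε) ∧
    ∀ u₀ : R3 → R3, ContDiff ℝ ∞ u₀ → HasCompactSupport u₀ → tsupport u₀ ⊆ Ω →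
      (∀ x, ∑ i, pdx i (fun y => u₀ y i) x = 0) →
      ∀ ε > 0, ∃ w, Sol (univ ×ˢ Ω) w ∧ (∀ x, w (0, x) = u₀ x) ∧ Many Ω T μ σ r w 0 ε := by
  have h1 : ∀ w v : ℝ × R3 → R3, Sol (univ ×ˢ Ω) w → Sol (Cyl Ω T) v →
      (∀ z ∈ tsupport v, ∀ t, (t, z.2) ∉ tsupport w) →
      (∀ z ∈ tsupport v, ∀ z' ∈ tsupport v, r z.2 = r z'.2) →
      ∀ ε > 0, Many Ω T μ σ r w v ε := fun w v hw hv hvw hvr ε hε =>
    many hΩ hbd hne hT hμ hσ hr ha hab hw hv hvw hvr hε
  refine ⟨h1, fun u₀ hs hc ht hd ε hε => ?_⟩
  obtain ⟨w, hw, hw0⟩ := exists_ext hs hc ht hd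
  have he : tsupport (0 : ℝ × R3 → R3) = ∅ := tsupport_eq_empty_iff.2 rfl
  refine ⟨w, hw, hw0, h1 w 0 hw (sol_zero _) ?_ ?_ ε hε⟩
  · intro z hz
    rw [he] at hz
    exact hz.elim
  · intro z hz
    rw [he] at hz
    exact hz.elim

end Pool.Agent.Results.MP_59296a_an.DenseInitialData
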